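import Pool.Agent.J4H64.D3.Final

set_option autoImplicit false

/-! Depth three circuits for satisfiability: both kinds of output gates. -/

namespace Pool.Agent.J4H64.D3

open Filter Pool.Agent.H596R2.D3

theorem both_main (k : ℕ) (hk : 3 ≤ k) : ∃ c : ℝ, 0 < c ∧ ∀ᶠ n : ℕ in atTop,
    ∀ C : Circuit (Clause n k) 3, C.Decides →
      (2 : ℝ) ^ (c * (n : ℝ) ^ ((k : ℝ) / (k + 1))) ≤ C.size := by
  obtain ⟨c1, h1, e1⟩ := sigma_main k hk
  obtain ⟨c2, h2, e2⟩ := pi_main k hk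
  refine ⟨min c1 c2, lt_min h1 h2, ?_⟩
  filter_upwards [e1, e2, eventually_ge_atTop 1] with n f1 f2 f3
  intro C hC
  have hn1 : (1 : ℝ) ≤ n := by exact_mod_cast f3
  have hk0 : (0 : ℝ) < (k : ℝ) + 1 := by positivity
  rcases hb : C.conj C.out with _ | _
  · refine le_trans (Real.rpow_le_rpow_of_exponent_le (by norm_num) ?_) (f1 C hb hC)
    exact mul_le_mul_of_nonneg_right (min_le_left _ _) (Real.rpow_nonneg (by linarith) _)
  · refine le_trans (Real.rpow_le_rpow_of_exponent_le (by norm_num) ?_) (f2 C hb hC)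
    have h3 : (n : ℝ) ^ ((k : ℝ) / (k + 1)) ≤ n := by
      conv_rhs => rw [← Real.rpow_one (n : ℝ)]
      apply Real.rpow_le_rpow_of_exponent_le hn1
      rw [div_le_one hk0]
      linarith
    calc min c1 c2 * (n : ℝ) ^ ((k : ℝ) / (k + 1)) ≤ c2 * (n : ℝ) ^ ((k : ℝ) / (k + 1)) :=
          mul_le_mul_of_nonneg_right (min_le_right _ _) (Real.rpow_nonneg (by linarith) _)
      _ ≤ c2 * n := mul_le_mul_of_nonneg_left h3 h2.le

end Pool.Agent.J4H64.D3
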