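import Pool.Agent.J4H64.D3.Inst

set_option autoImplicit false

/-! Depth three circuits for satisfiability: the bounds. -/

namespace Pool.Agent.J4H64.D3

open Finset Classical Pool.Agent.H596R2.D3

lemma card_clause (n k : ℕ) : Fintype.card (Clause n k) ≤ (2 * n + 1) ^ k := by
  have h0 : Fintype.card (Fin k → Option (Fin n × Bool)) = (2 * n + 1) ^ k := by
    simp [mul_comm]
  rw [← h0]
  let f : (Fin k → Option (Fin n × Bool)) → Clause n k := fun g =>
    ⟨univ.biUnion fun i => (g i).toFinset, by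
      refine card_biUnion_le.trans ?_
      calc ∑ i, (g i).toFinset.card ≤ ∑ _i : Fin k, 1 := sum_le_sum fun i _ => by
            cases g i <;> simp
        _ = k := by simp⟩
  refine Fintype.card_le_of_surjective f ?_
  rintro ⟨c, hc⟩
  refine ⟨fun i => if h : i.1 < c.card then some (c.equivFin.symm ⟨i.1, h⟩).1 else none, ?_⟩
  apply Subtype.ext
  ext l
  simp only [f, mem_biUnion, mem_univ, true_and, Option.mem_toFinset, Option.mem_def]
  constructor
  · rintro ⟨i, hi⟩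
    split_ifs at hi with h
    simp only [Option.some.injEq] at hi
    rw [← hi]
    exact (c.equivFin.symm ⟨i.1, h⟩).2
  · intro hl
    set i := c.equivFin ⟨l, hl⟩ with hi
    refine ⟨⟨i.1, lt_of_lt_of_le i.2 hc⟩, ?_⟩
    rw [dif_pos i.2]
    simp only [Option.some.injEq]
    have : (⟨i.1, i.2⟩ : Fin c.card) = i := rfl
    rw [this, hi, Equiv.symm_apply_apply]

/-- The common bound. -/
lemma bound {n k R K' : ℕ} {Rt Kt : Type} [Fintype Rt] [Fintype Kt] (C : Circuit (Clause n k) 3)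
    (X : ((Rt × Kt) × Bool → Bool) → Clause n k → Bool) (hX : IsProj X)
    (hf : ∀ w, C.Ov C.out (X w) ↔ ∀ i, ∃ j, w ((i, j), false) = true ∧ w ((i, j), true) = true)
    (hR : Fintype.card Rt = R) (hK : Fintype.card Kt = K') (hRK : R ≤ K') (hR4 : 4 ≤ R)
    (hI : (2 * n + 1) ^ k ≤ 2 ^ (R - 2)) : 2 ^ (R / 2) ≤ C.size := by
  by_contra hcon
  push Not at hcon
  have hp : 1 ≤ R / 2 := by omega
  have h1 := lower C X hX (R / 2) hp (hcon.trans (Nat.pow_lt_pow_right (by norm_num) (by omega)))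
    hf
  rw [hR, hK] at h1
  have h2 : (2 * (R / 2)) ^ R ≤ K' ^ R := Nat.pow_le_pow_left (by omega) R
  rw [mul_pow] at h2
  have h3 : 2 ^ R ≤ 2 * Fintype.card (Clause n k) + 2 * C.size := by
    have hpos : 0 < (R / 2) ^ R := Nat.pow_pos hp
    exact Nat.le_of_mul_le_mul_right (h2.trans h1) hpos
  have h4 := (card_clause n k).trans hI
  have h5 : 2 ^ R = 4 * 2 ^ (R - 2) := by
    rw [show (4 : ℕ) = 2 ^ 2 by norm_num, ← pow_add]
    congr 1
    omega
  have h6 : 2 ^ (R / 2) ≤ 2 ^ (R - 2) := Nat.pow_le_pow_right (by norm_num) (by omega)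
  omega

lemma sigma_bound {n k m : ℕ} (hk : 2 ≤ k) (hm : 1 ≤ m)
    (hn : 4 * (k + 1) * m ^ (k + 2) ≤ n) (C : Circuit (Clause n (k + 1)) 3) (hC : C.Decides)
    (hout : C.conj C.out = false) (hR4 : 4 ≤ m ^ (k + 1))
    (hI : (2 * n + 1) ^ (k + 1) ≤ 2 ^ (m ^ (k + 1) - 2)) : 2 ^ (m ^ (k + 1) / 2) ≤ C.size := by
  have hcard : Fintype.card (VS (m ^ (k + 1)) m k) ≤ Fintype.card (Fin n) := by
    rw [card_VS, Fintype.card_fin]
    refine le_trans ?_ hn
    have e : m ^ (k + 2) = m ^ (k + 1) * m := pow_succ _ _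
    rw [e]
    have h1 : (k + 1) * m + (m + (k + 1) * (m + 1)) ≤ 4 * ((k + 1) * m) := by nlinarith
    calc m ^ (k + 1) * ((k + 1) * m + (m + (k + 1) * (m + 1))) ≤
        m ^ (k + 1) * (4 * ((k + 1) * m)) := Nat.mul_le_mul_left _ h1
      _ = _ := by ring
  obtain ⟨f⟩ := Function.Embedding.nonempty_of_card_le hcard
  obtain ⟨X, hX, hsat⟩ := embed (k := k + 1) f f.injective (fxS _ m k) clS
    (fun c hc => (fxS_card hc).trans (by omega)) clS_card clS_inj true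
  refine bound C X hX (fun w => ?_) (by simp) (K' := m ^ (k + 1)) (by simp) le_rfl hR4 hI
  unfold Circuit.Ov
  rw [hC, hsat, satS, hout]
  simp

lemma pi_bound {n k R : ℕ} (hk : 3 ≤ k) (hn : 3 * R + 1 ≤ n) (C : Circuit (Clause n k) 3)
    (hC : C.Decides) (hout : C.conj C.out = true) (hR4 : 4 ≤ R)
    (hI : (2 * n + 1) ^ k ≤ 2 ^ (R - 2)) : 2 ^ (R / 2) ≤ C.size := by
  have hcard : Fintype.card (VP R R) ≤ Fintype.card (Fin n) := by
    rw [card_VP, Fintype.card_fin]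
    omega
  obtain ⟨f⟩ := Function.Embedding.nonempty_of_card_le hcard
  obtain ⟨X, hX, hsat⟩ := embed (k := k) f f.injective (fxP R R) clP
    (fun c hc => (fxP_card hc).trans hk) (fun q => (clP_card q).trans (by omega)) clP_inj false
  refine bound C X hX (fun w => ?_) (by simp) (K' := R) (by simp) le_rfl hR4 hI
  unfold Circuit.Ov
  rw [hC, hsat, hout, ← satP]
  simp

lemma wide_bound {n v R : ℕ} (hv : 1 ≤ v) (hn : R * (v + 1) ≤ n) (hK : 2 * n ^ 2 ≤ 2 ^ v)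
    (C : Circuit (Clause n (v + 1)) 3) (hC : C.Decides) (hout : C.conj C.out = false) (p : ℕ)
    (hp : 1 ≤ p) (hpn : p ≤ n) (hp2 : 4 * 2 ^ p ≤ n ^ R)
    (hI : (2 * n + 1) ^ (v + 1) ≤ 2 ^ p) : 2 ^ p ≤ C.size := by
  have hcard : Fintype.card (VW R v) ≤ Fintype.card (Fin n) := by
    rw [card_VW, Fintype.card_fin]
    exact hn
  obtain ⟨f⟩ := Function.Embedding.nonempty_of_card_le hcard
  obtain ⟨X, hX, hsat⟩ := embed (k := v + 1) f f.injective (fxW R v) clW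
    (fun c hc => by obtain ⟨i, rfl⟩ := hc; simp) clW_card (clW_inj hv) true
  by_contra hcon
  push Not at hcon
  have h1 := lower C X hX p hp (hcon.trans (Nat.pow_lt_pow_right (by norm_num) (by omega)))
    (fun w => by
      unfold Circuit.Ov
      rw [hC, hsat, satW, hout]
      simp)
  have hR : Fintype.card (Fin R) = R := by simp
  have hKc : Fintype.card (Fin v → Bool) = 2 ^ v := by simp
  rw [hR, hKc] at h1
  have h2 : (2 * n * p) ^ R ≤ (2 ^ v) ^ R := by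
    refine Nat.pow_le_pow_left (le_trans ?_ hK) R
    nlinarith
  rw [mul_pow] at h2
  have h3 : (2 * n) ^ R ≤ 2 * Fintype.card (Clause n (v + 1)) + 2 * C.size := by
    have hpos : 0 < p ^ R := Nat.pow_pos hp
    exact Nat.le_of_mul_le_mul_right (h2.trans h1) hpos
  have h4 := (card_clause n (v + 1)).trans hI
  have h5 : n ^ R ≤ (2 * n) ^ R := Nat.pow_le_pow_left (by omega) R
  have h6 : 0 < 2 ^ p := by positivity
  omega

open Filter

lemma ev_log (k : ℕ) {c a : ℝ} (hc : 0 < c) (ha : 0 < a) :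
    ∀ᶠ n : ℕ in atTop, (k : ℝ) * Real.logb 2 (2 * n + 1) + 2 ≤ c * (n : ℝ) ^ a := by
  have hn : Tendsto (fun n : ℕ => (n : ℝ)) atTop atTop := tendsto_natCast_atTop_atTop
  have hl2 : 0 < Real.log 2 := Real.log_pos (by norm_num)
  have h1 := (isLittleO_log_rpow_atTop ha).bound
    (show (0 : ℝ) < c * Real.log 2 / (2 * ((k : ℝ) + 1)) by positivity)
  have h2 := ((tendsto_rpow_atTop ha).comp hn).eventually_ge_atTop
    ((2 * (k * Real.logb 2 3 + 2)) / c)
  filter_upwards [hn.eventually h1, h2, eventually_ge_atTop 1] with n e1 e2 e3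
  have hn1 : (1 : ℝ) ≤ n := by exact_mod_cast e3
  have hn0 : (0 : ℝ) < n := by linarith
  rw [Real.norm_eq_abs, Real.norm_eq_abs, abs_of_nonneg (Real.log_nonneg hn1),
    abs_of_nonneg (Real.rpow_nonneg hn0.le _)] at e1
  simp only [Function.comp_apply] at e2
  have h3 : Real.logb 2 (2 * n + 1) ≤ Real.logb 2 3 + Real.log n / Real.log 2 := by
    have : Real.logb 2 (2 * (n : ℝ) + 1) ≤ Real.logb 2 (3 * n) :=
      Real.logb_le_logb_of_le (by norm_num) (by linarith) (by linarith)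
    rw [Real.logb_mul (by norm_num) hn0.ne'] at this
    exact this
  have h4 : (k : ℝ) * (Real.log n / Real.log 2) ≤ c / 2 * (n : ℝ) ^ a := by
    have h5 : Real.log n / Real.log 2 ≤ c / (2 * ((k : ℝ) + 1)) * (n : ℝ) ^ a := by
      rw [div_le_iff₀ hl2]
      calc Real.log n ≤ c * Real.log 2 / (2 * ((k : ℝ) + 1)) * (n : ℝ) ^ a := e1
        _ = _ := by ring
    have h6 : (0 : ℝ) ≤ c / (2 * ((k : ℝ) + 1)) * (n : ℝ) ^ a := by positivity
    calc (k : ℝ) * (Real.log n / Real.log 2) ≤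
        ((k : ℝ) + 1) * (c / (2 * ((k : ℝ) + 1)) * (n : ℝ) ^ a) := by
          have : (0 : ℝ) ≤ k := Nat.cast_nonneg k
          nlinarith
      _ = c / 2 * (n : ℝ) ^ a := by field_simp
  have h5 : (k : ℝ) * Real.logb 2 3 + 2 ≤ c / 2 * (n : ℝ) ^ a := by
    rw [div_le_iff₀ hc] at e2
    linarith
  have hk0 : (0 : ℝ) ≤ k := Nat.cast_nonneg k
  calc (k : ℝ) * Real.logb 2 (2 * n + 1) + 2 ≤
      k * (Real.logb 2 3 + Real.log n / Real.log 2) + 2 := by gcongr
    _ = (k * Real.logb 2 3 + 2) + k * (Real.log n / Real.log 2) := by ring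
    _ ≤ c / 2 * (n : ℝ) ^ a + c / 2 * (n : ℝ) ^ a := add_le_add h5 h4
    _ = _ := by ring

lemma pow_le_of_log {n k r : ℕ} (h : (k : ℝ) * Real.logb 2 (2 * n + 1) ≤ r) :
    (2 * n + 1) ^ k ≤ 2 ^ r := by
  have h1 : (((2 * n + 1) ^ k : ℕ) : ℝ) ≤ ((2 ^ r : ℕ) : ℝ) := by
    push_cast
    have hpos : (0 : ℝ) < 2 * n + 1 := by positivity
    rw [← Real.rpow_natCast 2 r, ← Real.logb_le_iff_le_rpow (by norm_num) (by positivity),
      Real.logb_pow]
    exact h
  exact_mod_cast h1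

/-- OR-AND-OR circuits. -/
theorem sigma_main (k : ℕ) (hk : 3 ≤ k) : ∃ c : ℝ, 0 < c ∧ ∀ᶠ n : ℕ in atTop,
    ∀ C : Circuit (Clause n k) 3, C.conj C.out = false → C.Decides →
      (2 : ℝ) ^ (c * (n : ℝ) ^ ((k : ℝ) / (k + 1))) ≤ C.size := by
  obtain ⟨k, rfl⟩ : ∃ k', k = k' + 1 := ⟨k - 1, by omega⟩
  have hk2 : 2 ≤ k := by omega
  have hn : Tendsto (fun n : ℕ => (n : ℝ)) atTop atTop := tendsto_natCast_atTop_atTop
  set A : ℝ := 4 * ((k : ℝ) + 1) with hA
  have hA0 : 0 < A := by rw [hA]; positivity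
  set e : ℝ := ((k + 1 : ℕ) : ℝ) / (((k + 1 : ℕ) : ℝ) + 1) with he
  have he0 : 0 < e := by rw [he]; positivity
  set c0 : ℝ := (1 / 2) ^ (k + 1) * (1 / A) ^ e with hc0
  have hc0' : 0 < c0 := by rw [hc0]; positivity
  have ev1 := ev_log (k + 1) hc0' he0
  have ev2 := ((tendsto_rpow_atTop (show (0 : ℝ) < 1 / (((k + 1 : ℕ) : ℝ) + 1) by
    positivity)).comp (hn.atTop_div_const hA0)).eventually_ge_atTop 2
  have ev3 := ((tendsto_rpow_atTop he0).comp hn).eventually_ge_atTop (4 / c0)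
  refine ⟨c0 / 4, by positivity, ?_⟩
  filter_upwards [ev1, ev2, ev3, eventually_ge_atTop 1] with n e1 e2 e3 e4
  intro C hout hC
  simp only [Function.comp_apply] at e2 e3
  have hn0 : (0 : ℝ) < n := by exact_mod_cast e4
  set x : ℝ := ((n : ℝ) / A) ^ (1 / (((k + 1 : ℕ) : ℝ) + 1)) with hx
  set m : ℕ := ⌊x⌋₊ with hm
  have hx0 : 0 ≤ x := by linarith
  have hmx : (m : ℝ) ≤ x := Nat.floor_le hx0
  have hxm : x < m + 1 := Nat.lt_floor_add_one x
  have hm1 : 1 ≤ m := Nat.le_floor (by simpa using by linarith)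
  have hm1' : (1 : ℝ) ≤ m := by exact_mod_cast hm1
  have hxpow : x ^ (k + 2) = (n : ℝ) / A := by
    rw [hx, one_div]
    have : (((k + 1 : ℕ) : ℝ) + 1) = ((k + 2 : ℕ) : ℝ) := by push_cast; ring
    rw [this, Real.rpow_inv_natCast_pow (by positivity) (by omega)]
  have hnm : 4 * (k + 1) * m ^ (k + 2) ≤ n := by
    have h1 : (m : ℝ) ^ (k + 2) ≤ n / A := by
      rw [← hxpow]
      exact pow_le_pow_left₀ (by positivity) hmx _
    rw [le_div_iff₀ hA0] at h1
    have h2 : ((4 * (k + 1) * m ^ (k + 2) : ℕ) : ℝ) ≤ n := by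
      push_cast
      calc (4 : ℝ) * (k + 1) * m ^ (k + 2) = m ^ (k + 2) * A := by rw [hA]; ring
        _ ≤ n := h1
    exact_mod_cast h2
  -- the number of rows
  have hR : c0 * (n : ℝ) ^ e ≤ (m : ℝ) ^ (k + 1) := by
    have h1 : x / 2 ≤ m := by linarith
    have h2 : x ^ (k + 1) = ((n : ℝ) / A) ^ e := by
      rw [hx, ← Real.rpow_natCast, ← Real.rpow_mul (by positivity)]
      congr 1
      rw [he]
      ring
    calc c0 * (n : ℝ) ^ e = (1 / 2) ^ (k + 1) * ((n : ℝ) / A) ^ e := by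
          rw [hc0, mul_assoc, ← Real.mul_rpow (by positivity) (by positivity)]
          congr 2
          ring
      _ = (x / 2) ^ (k + 1) := by
          rw [← h2, ← mul_pow]
          congr 1
          ring
      _ ≤ (m : ℝ) ^ (k + 1) := pow_le_pow_left₀ (by positivity) h1 _
  have hR4' : (4 : ℝ) ≤ (m : ℝ) ^ (k + 1) := by
    rw [div_le_iff₀ hc0'] at e3
    linarith
  have hR4 : 4 ≤ m ^ (k + 1) := by exact_mod_cast hR4'
  have hI : (2 * n + 1) ^ (k + 1) ≤ 2 ^ (m ^ (k + 1) - 2) := by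
    apply pow_le_of_log
    rw [Nat.cast_sub (by omega)]
    push_cast at e1 ⊢
    linarith
  have h1 := sigma_bound hk2 hm1 hnm C hC hout hR4 hI
  have h2 : ((2 : ℝ)) ^ ((m ^ (k + 1) / 2 : ℕ) : ℝ) ≤ C.size := by
    rw [Real.rpow_natCast]
    exact_mod_cast h1
  refine le_trans ?_ h2
  apply Real.rpow_le_rpow_of_exponent_le (by norm_num)
  have h3 : (m : ℝ) ^ (k + 1) / 4 ≤ ((m ^ (k + 1) / 2 : ℕ) : ℝ) := by
    have h4 : m ^ (k + 1) ≤ 4 * (m ^ (k + 1) / 2) := by omega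
    have h5 : ((m ^ (k + 1) : ℕ) : ℝ) ≤ 4 * ((m ^ (k + 1) / 2 : ℕ) : ℝ) := by exact_mod_cast h4
    push_cast at h5 ⊢
    linarith
  calc c0 / 4 * (n : ℝ) ^ e = c0 * (n : ℝ) ^ e / 4 := by ring
    _ ≤ (m : ℝ) ^ (k + 1) / 4 := by gcongr
    _ ≤ _ := h3

/-- AND-OR-AND circuits. -/
theorem pi_main (k : ℕ) (hk : 3 ≤ k) : ∃ c : ℝ, 0 < c ∧ ∀ᶠ n : ℕ in atTop,
    ∀ C : Circuit (Clause n k) 3, C.conj C.out = true → C.Decides →
      (2 : ℝ) ^ (c * (n : ℝ)) ≤ C.size := by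
  have ev1 := ev_log k (show (0 : ℝ) < 1 / 4 by norm_num) (show (0 : ℝ) < 1 by norm_num)
  refine ⟨1 / 16, by norm_num, ?_⟩
  filter_upwards [ev1, eventually_ge_atTop 48] with n e1 e2
  intro C hout hC
  rw [Real.rpow_one] at e1
  set R := (n - 1) / 3 with hR
  have hn48 : (48 : ℝ) ≤ n := by exact_mod_cast e2
  have hRn : (n : ℝ) ≤ 4 * R := by
    have : n ≤ 4 * R := by omega
    exact_mod_cast this
  have hI : (2 * n + 1) ^ k ≤ 2 ^ (R - 2) := by
    apply pow_le_of_log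
    rw [Nat.cast_sub (by omega)]
    push_cast
    linarith
  have h1 := pi_bound hk (by omega : 3 * R + 1 ≤ n) C hC hout (by omega) hI
  have h2 : ((2 : ℝ)) ^ ((R / 2 : ℕ) : ℝ) ≤ C.size := by
    rw [Real.rpow_natCast]
    exact_mod_cast h1
  refine le_trans ?_ h2
  apply Real.rpow_le_rpow_of_exponent_le (by norm_num)
  have h3 : n ≤ 16 * (R / 2) := by omega
  have h4 : (n : ℝ) ≤ 16 * ((R / 2 : ℕ) : ℝ) := by exact_mod_cast h3
  linarith

lemma wide_core {n t : ℕ} (hn3 : 1000 ≤ n) (ht9 : 9 ≤ t) (hpow : 2 ^ t ≤ n) (hpow2 : n < 2 ^ (t + 1))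
    (htt : 2000 * (t * t) ≤ n) (C : Circuit (Clause n (2 * t + 4)) 3) (hC : C.Decides) :
    2 ^ (n / 32) ≤ C.size := by
  obtain ⟨p, hp⟩ : ∃ p, p = n / 32 := ⟨_, rfl⟩
  rw [← hp]
  have hpn : n ≤ 40 * p := by omega
  have hI : (2 * n + 1) ^ (2 * t + 4) ≤ 2 ^ p := by
    calc (2 * n + 1) ^ (2 * t + 4) ≤ (2 ^ (t + 3)) ^ (2 * t + 4) := by
          apply Nat.pow_le_pow_left
          have : 2 ^ (t + 3) = 4 * 2 ^ (t + 1) := by rw [pow_add, pow_add]; ring
          omega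
      _ = 2 ^ ((t + 3) * (2 * t + 4)) := by rw [← pow_mul]
      _ ≤ 2 ^ p := by
          apply Nat.pow_le_pow_right (by norm_num)
          have : (t + 3) * (2 * t + 4) ≤ 6 * (t * t) := by nlinarith
          omega
  rcases hb : C.conj C.out with _ | _
  · -- OR-AND-OR
    obtain ⟨R, hR⟩ : ∃ R, R = n / (2 * t + 4) := ⟨_, rfl⟩
    have hRn : R * (2 * t + 3 + 1) ≤ n := by
      rw [hR]
      exact Nat.div_mul_le_self n (2 * t + 4)
    refine wide_bound (v := 2 * t + 3) (by omega) hRn ?_ C hC hb p (by omega) (by omega) ?_ hI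
    · have h2 : 2 * n ^ 2 ≤ 2 * (2 ^ (t + 1)) ^ 2 :=
        Nat.mul_le_mul_left _ (Nat.pow_le_pow_left hpow2.le 2)
      refine h2.trans (le_of_eq ?_)
      rw [← pow_mul]
      rw [show 2 * t + 3 = 1 + (t + 1) * 2 by ring, pow_add]
      norm_num
    · -- 4 * 2^p ≤ n^R
      have h3 : 2 ^ (t * R) ≤ n ^ R := by
        rw [pow_mul]
        exact Nat.pow_le_pow_left hpow R
      refine le_trans ?_ h3
      rw [show (4 : ℕ) = 2 ^ 2 by norm_num, ← pow_add]
      apply Nat.pow_le_pow_right (by norm_num)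
      have h4 : n < (R + 1) * (2 * t + 4) := by
        rw [hR]
        have e1 := Nat.div_add_mod n (2 * t + 4)
        have e2 := Nat.mod_lt n (show 0 < 2 * t + 4 by omega)
        have e3 : (n / (2 * t + 4) + 1) * (2 * t + 4) =
          (2 * t + 4) * (n / (2 * t + 4)) + (2 * t + 4) := by ring
        omega
      have h5 : (R + 1) * (2 * t + 4) ≤ 3 * (t * R) + 3 * t := by
        have : (R + 1) * (2 * t + 4) = 2 * (t * R) + 4 * R + 2 * t + 4 := by ring
        have h6 : 4 * R ≤ t * R := Nat.mul_le_mul_right _ (by omega)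
        omega
      have h7 : t ≤ t * t := Nat.le_mul_self t
      omega
  · -- AND-OR-AND
    obtain ⟨R, hR⟩ : ∃ R, R = (n - 1) / 3 := ⟨_, rfl⟩
    refine le_trans (Nat.pow_le_pow_right (by norm_num) (by omega : p ≤ R / 2))
      (pi_bound (by omega) (by omega : 3 * R + 1 ≤ n) C hC hb (by omega) (hI.trans ?_))
    exact Nat.pow_le_pow_right (by norm_num) (by omega)

lemma wide_arith : ∀ᶠ n : ℕ in atTop, 1000 ≤ n ∧ 9 ≤ Nat.log 2 n ∧
    2000 * (Nat.log 2 n * Nat.log 2 n) ≤ n := by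
  have hn : Tendsto (fun n : ℕ => (n : ℝ)) atTop atTop := tendsto_natCast_atTop_atTop
  have h0 := (isLittleO_log_rpow_atTop (show (0 : ℝ) < 1 / 4 by norm_num)).bound
    (show (0 : ℝ) < 1 by norm_num)
  have h1 := ((tendsto_rpow_atTop (show (0 : ℝ) < 1 / 2 by norm_num)).comp
    hn).eventually_ge_atTop 8000
  filter_upwards [hn.eventually h0, h1, eventually_ge_atTop 1000] with n e1 e2 e3
  simp only [Function.comp_apply] at e2
  have hn3 : (1000 : ℝ) ≤ n := by exact_mod_cast e3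
  have hn0 : (0 : ℝ) < n := by linarith
  obtain ⟨t, ht⟩ : ∃ t, t = Nat.log 2 n := ⟨_, rfl⟩
  rw [← ht]
  have ht9 : 9 ≤ t := by
    rw [ht]
    exact Nat.le_log_of_pow_le (by norm_num) (by omega)
  have hpow : 2 ^ t ≤ n := by
    rw [ht]
    exact Nat.pow_log_le_self 2 (by omega)
  have hl2' : (1 : ℝ) / 2 < Real.log 2 := by
    have := Real.log_two_gt_d9; linarith
  have htl : (t : ℝ) ≤ 2 * (n : ℝ) ^ (1 / 4 : ℝ) := by
    have h2 : (t : ℝ) * Real.log 2 ≤ Real.log n := by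
      rw [← Real.log_pow]
      apply Real.log_le_log (by positivity)
      exact_mod_cast hpow
    rw [Real.norm_eq_abs, Real.norm_eq_abs, one_mul, abs_of_nonneg (Real.log_nonneg (by linarith)),
      abs_of_nonneg (Real.rpow_nonneg hn0.le _)] at e1
    have ht0 : (0 : ℝ) ≤ t := Nat.cast_nonneg t
    nlinarith
  have hsq : (n : ℝ) ^ (1 / 4 : ℝ) * (n : ℝ) ^ (1 / 4 : ℝ) = (n : ℝ) ^ (1 / 2 : ℝ) := by
    rw [← Real.rpow_add hn0]; norm_num
  have hsq2 : (n : ℝ) ^ (1 / 2 : ℝ) * (n : ℝ) ^ (1 / 2 : ℝ) = n := by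
    rw [← Real.rpow_add hn0]; norm_num
  obtain ⟨s, hs⟩ : ∃ s, s = (n : ℝ) ^ (1 / 2 : ℝ) := ⟨_, rfl⟩
  obtain ⟨q, hq⟩ : ∃ q, q = (n : ℝ) ^ (1 / 4 : ℝ) := ⟨_, rfl⟩
  rw [← hs] at hsq hsq2 e2
  rw [← hq] at hsq htl
  have hq0 : 0 ≤ q := by rw [hq]; positivity
  have ht2 : (t : ℝ) * t ≤ 4 * s := by
    have ht0 : (0 : ℝ) ≤ t := Nat.cast_nonneg t
    nlinarith
  have hs2 : 8000 * s ≤ n := by nlinarith
  have htt : 2000 * (t * t) ≤ n := by
    have : 2000 * ((t : ℝ) * t) ≤ n := by linarith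
    exact_mod_cast this
  exact ⟨e3, ht9, htt⟩

/-- Clauses of logarithmic length. -/
theorem wide_main : ∀ᶠ n : ℕ in atTop,
    ∀ C : Circuit (Clause n (2 * Nat.log 2 n + 4)) 3, C.Decides →
      (2 : ℝ) ^ ((1 / 40 : ℝ) * (n : ℝ)) ≤ C.size := by
  filter_upwards [wide_arith] with n e
  intro C hC
  obtain ⟨e1, e2, e3⟩ := e
  have hfin := wide_core e1 e2 (Nat.pow_log_le_self 2 (by omega))
    (Nat.lt_pow_succ_log_self (by norm_num) n) e3 C hC
  have h2 : ((2 : ℝ)) ^ ((n / 32 : ℕ) : ℝ) ≤ C.size := by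
    rw [Real.rpow_natCast]
    exact_mod_cast hfin
  refine le_trans ?_ h2
  apply Real.rpow_le_rpow_of_exponent_le (by norm_num)
  have h3 : n ≤ 40 * (n / 32) := by omega
  have h4 : (n : ℝ) ≤ 40 * ((n / 32 : ℕ) : ℝ) := by exact_mod_cast h3
  linarith

end Pool.Agent.J4H64.D3
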