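import Pool.Agent.H596R2.D3.Emb

set_option autoImplicit false

/-! Families of `k`-CNF formulas which embed the hard functions for depth three circuits. -/

namespace Pool.Agent.J4H64.D3

open Finset Classical Pool.Agent.H596R2.D3

section Sigma

/-- The variables: selectors, a copy of the first group of selectors, and chains. -/
abbrev VS (R m k : ℕ) : Type :=
  Fin R × ((Fin (k + 1) × Fin m) ⊕ (Fin m ⊕ (Fin (k + 1) × Fin (m + 1))))

variable {R m k : ℕ}

def su (i : Fin R) (s : Fin (k + 1)) (a : Fin m) : VS R m k := (i, Sum.inl (s, a))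
def su' (i : Fin R) (a : Fin m) : VS R m k := (i, Sum.inr (Sum.inl a))
def sc (i : Fin R) (s : Fin (k + 1)) (d : Fin (m + 1)) : VS R m k :=
  (i, Sum.inr (Sum.inr (s, d)))

/-- the fixed clauses -/
def fxS (R m k : ℕ) : Set (Finset (VS R m k × Bool)) :=
  {c | (∃ i s, c = {(sc i s 0, true)}) ∨ (∃ i s, c = {(sc i s (Fin.last m), false)}) ∨
    (∃ i s d, c = {(sc i s d.castSucc, false), (su i s d, true), (sc i s d.succ, true)}) ∨
    (∃ i a, c = {(su i 0 a, false), (su' i a, true)})}

/-- the variable of the group `s` used in the copy `b` -/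
def lv (i : Fin R) (b : Bool) (s : Fin (k + 1)) (a : Fin m) : VS R m k :=
  if b = true ∧ s = 0 then su' i a else su i s a

/-- the clause which excludes the choice `j` in the row `i` (two copies) -/
noncomputable def clS (q : (Fin R × (Fin (k + 1) → Fin m)) × Bool) : Finset (VS R m k × Bool) :=
  univ.image fun s => (lv q.1.1 q.2 s (q.1.2 s), false)

lemma lv_inj {i i' : Fin R} {b b' : Bool} {s s' : Fin (k + 1)} {a a' : Fin m}
    (h : lv i b s a = lv i' b' s' a') : i = i' ∧ s = s' ∧ a = a' := by
  unfold lv su su' at h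
  split_ifs at h with h1 h2 h2
  · simp only [Prod.mk.injEq, Sum.inr.injEq, Sum.inl.injEq] at h
    exact ⟨h.1, h1.2.trans h2.2.symm, h.2⟩
  · simp only [Prod.mk.injEq, reduceCtorEq, and_false] at h
  · simp only [Prod.mk.injEq, reduceCtorEq, and_false] at h
  · simp only [Prod.mk.injEq, Sum.inl.injEq] at h
    exact ⟨h.1, h.2.1, h.2.2⟩

lemma lv_zero {i : Fin R} {b b' : Bool} {a : Fin m}
    (h : lv i b (0 : Fin (k + 1)) a = lv i b' 0 a) : b = b' := by
  unfold lv su su' at h
  cases b <;> cases b' <;> simp_all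

lemma clS_inj : Function.Injective (clS (R := R) (m := m) (k := k)) := by
  rintro ⟨⟨i, j⟩, b⟩ ⟨⟨i', j'⟩, b'⟩ h
  have key : ∀ s, lv i b s (j s) = lv i' b' s (j' s) := by
    intro s
    have h1 : (lv i b s (j s), false) ∈ clS ((i', j'), b') := by
      rw [← h]
      exact mem_image_of_mem _ (mem_univ s)
    obtain ⟨s', _, hs'⟩ := mem_image.1 h1
    simp only [Prod.mk.injEq, and_true] at hs'
    obtain ⟨_, rfl, _⟩ := lv_inj hs'
    exact hs'.symm
  obtain ⟨rfl, _, _⟩ := lv_inj (key 0)
  have hj : j = j' := funext fun s => (lv_inj (key s)).2.2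
  subst hj
  rw [lv_zero (key 0)]

lemma fxS_card {c : Finset (VS R m k × Bool)} (hc : c ∈ fxS R m k) : c.card ≤ 3 := by
  rcases hc with ⟨i, s, rfl⟩ | ⟨i, s, rfl⟩ | ⟨i, s, d, rfl⟩ | ⟨i, a, rfl⟩
  · simp
  · simp
  · exact card_le_three
  · exact card_le_two.trans (by norm_num)

lemma clS_card (q : (Fin R × (Fin (k + 1) → Fin m)) × Bool) : (clS q).card ≤ k + 1 := by
  unfold clS
  exact card_image_le.trans (by simp)

/-- The formula is satisfiable iff in every row some choice is not excluded. -/
lemma satS (w : (Fin R × (Fin (k + 1) → Fin m)) × Bool → Bool) :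
    (∃ x : VS R m k → Bool, (∀ c ∈ fxS R m k, ∃ l ∈ c, x l.1 = l.2) ∧
        ∀ q, xor (w q) true = true → ∃ l ∈ clS q, x l.1 = l.2) ↔
      ∀ i, ∃ j, w ((i, j), false) = true ∧ w ((i, j), true) = true := by
  constructor
  · rintro ⟨x, hx, hq⟩ i
    have hch : ∀ s, ∃ a, x (su i s a) = true := by
      intro s
      refine chain (fun a => x (su i s a)) (fun d => x (sc i s d)) ?_ ?_ ?_
      · obtain ⟨l, hl, h⟩ := hx {(sc i s 0, true)} (Or.inl ⟨i, s, rfl⟩)
        rw [mem_singleton] at hl
        subst hl
        exact h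
      · intro d
        obtain ⟨l, hl, h⟩ := hx {(sc i s d.castSucc, false), (su i s d, true),
          (sc i s d.succ, true)} (Or.inr (Or.inr (Or.inl ⟨i, s, d, rfl⟩)))
        simp only [mem_insert, mem_singleton] at hl
        rcases hl with rfl | rfl | rfl
        · exact Or.inl h
        · exact Or.inr (Or.inl h)
        · exact Or.inr (Or.inr h)
      · obtain ⟨l, hl, h⟩ := hx {(sc i s (Fin.last m), false)} (Or.inr (Or.inl ⟨i, s, rfl⟩))
        rw [mem_singleton] at hl
        subst hl
        exact h
    choose j hj using hch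
    have hcopy : x (su' i (j 0)) = true := by
      obtain ⟨l, hl, h⟩ := hx {(su i 0 (j 0), false), (su' i (j 0), true)}
        (Or.inr (Or.inr (Or.inr ⟨i, j 0, rfl⟩)))
      simp only [mem_insert, mem_singleton] at hl
      rcases hl with rfl | rfl
      · simp only [hj] at h
        exact absurd h (by simp)
      · exact h
    have hlv : ∀ b s, x (lv i b s (j s)) = true := by
      intro b s
      unfold lv
      split_ifs with h
      · rw [h.2]; exact hcopy
      · exact hj s
    refine ⟨j, ?_, ?_⟩
    · by_contra hcon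
      obtain ⟨l, hl, h⟩ := hq ((i, j), false) (by simpa using hcon)
      obtain ⟨s, _, rfl⟩ := mem_image.1 hl
      simp only at h
      rw [hlv] at h
      exact absurd h (by simp)
    · by_contra hcon
      obtain ⟨l, hl, h⟩ := hq ((i, j), true) (by simpa using hcon)
      obtain ⟨s, _, rfl⟩ := mem_image.1 hl
      simp only at h
      rw [hlv] at h
      exact absurd h (by simp)
  · intro h
    choose J hJ1 hJ2 using h
    let x : VS R m k → Bool := fun v => match v with
      | (i, Sum.inl (s, a)) => decide (a = J i s)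
      | (i, Sum.inr (Sum.inl a)) => decide (a = J i 0)
      | (i, Sum.inr (Sum.inr (s, d))) => decide (d.1 ≤ (J i s).1)
    have xu : ∀ i s a, x (su i s a) = decide (a = J i s) := fun _ _ _ => rfl
    have xu' : ∀ i a, x (su' i a) = decide (a = J i 0) := fun _ _ => rfl
    have xc : ∀ i s d, x (sc i s d) = decide (d.1 ≤ (J i s).1) := fun _ _ _ => rfl
    refine ⟨x, ?_, ?_⟩
    · rintro c (⟨i, s, rfl⟩ | ⟨i, s, rfl⟩ | ⟨i, s, d, rfl⟩ | ⟨i, a, rfl⟩)
      · exact ⟨_, mem_singleton_self _, by rw [xc]; simp⟩
      · refine ⟨_, mem_singleton_self _, ?_⟩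
        rw [xc]
        have := (J i s).2
        simp only [Fin.val_last, decide_eq_false_iff_not]
        omega
      · by_cases h1 : d.1 ≤ (J i s).1
        · by_cases h2 : d = J i s
          · exact ⟨(su i s d, true), by simp, by rw [xu]; simp [h2]⟩
          · refine ⟨(sc i s d.succ, true), by simp, ?_⟩
            rw [xc]
            have h3 : d.1 ≠ (J i s).1 := fun h => h2 (Fin.ext h)
            simp only [Fin.val_succ, decide_eq_true_eq]
            omega
        · refine ⟨(sc i s d.castSucc, false), by simp, ?_⟩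
          rw [xc]
          simpa using h1
      · by_cases h1 : a = J i 0
        · exact ⟨(su' i a, true), by simp, by rw [xu']; simp [h1]⟩
        · exact ⟨(su i 0 a, false), by simp, by rw [xu]; simp [h1]⟩
    · rintro ⟨⟨i, j⟩, b⟩ hq
      have hne : j ≠ J i := by
        rintro rfl
        cases b
        · rw [hJ1] at hq; simp at hq
        · rw [hJ2] at hq; simp at hq
      obtain ⟨s, hs⟩ := Function.ne_iff.1 hne
      refine ⟨(lv i b s (j s), false), mem_image_of_mem _ (mem_univ s), ?_⟩
      simp only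
      unfold lv
      split_ifs with h
      · rw [xu', ← h.2]
        simpa using hs
      · rw [xu]
        simpa using hs

lemma card_VS : Fintype.card (VS R m k) = R * ((k + 1) * m + (m + (k + 1) * (m + 1))) := by
  simp [VS]

end Sigma

section Pi

/-- The variables: selectors of rows, columns, and a chain. -/
abbrev VP (R K : ℕ) : Type := Fin R ⊕ (Fin K ⊕ Fin (R + 1))

variable {R K : ℕ}

def px (i : Fin R) : VP R K := Sum.inl i
def pa (j : Fin K) : VP R K := Sum.inr (Sum.inl j)
def pc (d : Fin (R + 1)) : VP R K := Sum.inr (Sum.inr d)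

/-- the fixed clauses -/
def fxP (R K : ℕ) : Set (Finset (VP R K × Bool)) :=
  {c | c = {(pc 0, true)} ∨ c = {(pc (Fin.last R), false)} ∨
    (∃ d, c = {(pc d.castSucc, false), (px d, true), (pc d.succ, true)})}

/-- row `i` and column `j` -/
noncomputable def clP (q : (Fin R × Fin K) × Bool) : Finset (VP R K × Bool) :=
  {(px q.1.1, false), (pa q.1.2, q.2)}

lemma clP_inj : Function.Injective (clP (R := R) (K := K)) := by
  rintro ⟨⟨i, j⟩, b⟩ ⟨⟨i', j'⟩, b'⟩ h
  have h1 : ((px i : VP R K), false) ∈ clP ((i', j'), b') := by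
    rw [← h]; simp [clP]
  have h2 : ((pa j : VP R K), b) ∈ clP ((i', j'), b') := by
    rw [← h]; simp [clP]
  simp only [clP, px, pa, mem_insert, mem_singleton, Prod.mk.injEq, Sum.inl.injEq,
    Sum.inr.injEq, reduceCtorEq, false_and, or_false, and_true, false_or] at h1 h2
  obtain ⟨rfl, rfl⟩ := h2
  subst h1
  rfl

lemma fxP_card {c : Finset (VP R K × Bool)} (hc : c ∈ fxP R K) : c.card ≤ 3 := by
  rcases hc with rfl | rfl | ⟨d, rfl⟩
  · simp
  · simp
  · exact card_le_three

lemma clP_card (q : (Fin R × Fin K) × Bool) : (clP q).card ≤ 2 := card_le_two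

/-- The formula is unsatisfiable iff every row is excluded by some column. -/
lemma satP (w : (Fin R × Fin K) × Bool → Bool) :
    (¬ ∃ x : VP R K → Bool, (∀ c ∈ fxP R K, ∃ l ∈ c, x l.1 = l.2) ∧
        ∀ q, xor (w q) false = true → ∃ l ∈ clP q, x l.1 = l.2) ↔
      ∀ i, ∃ j, w ((i, j), false) = true ∧ w ((i, j), true) = true := by
  constructor
  · intro hns i
    by_contra hcon
    push Not at hcon
    apply hns
    let x : VP R K → Bool := fun v => match v with
      | Sum.inl i' => decide (i' = i)
      | Sum.inr (Sum.inl j) => w ((i, j), true)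
      | Sum.inr (Sum.inr d) => decide (d.1 ≤ i.1)
    have xx : ∀ i', x (px i') = decide (i' = i) := fun _ => rfl
    have xa : ∀ j, x (pa j) = w ((i, j), true) := fun _ => rfl
    have xc : ∀ d, x (pc d) = decide (d.1 ≤ i.1) := fun _ => rfl
    refine ⟨x, ?_, ?_⟩
    · rintro c (rfl | rfl | ⟨d, rfl⟩)
      · exact ⟨_, mem_singleton_self _, by rw [xc]; simp⟩
      · refine ⟨_, mem_singleton_self _, ?_⟩
        rw [xc]
        simp
      · by_cases h1 : d.1 ≤ i.1
        · by_cases h2 : d = i
          · exact ⟨(px d, true), by simp, by rw [xx]; simp [h2]⟩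
          · refine ⟨(pc d.succ, true), by simp, ?_⟩
            rw [xc]
            have h3 : d.1 ≠ i.1 := fun h => h2 (Fin.ext h)
            simp only [Fin.val_succ, decide_eq_true_eq]
            omega
        · refine ⟨(pc d.castSucc, false), by simp, ?_⟩
          rw [xc]
          simpa using h1
    · rintro ⟨⟨i', j⟩, b⟩ hq
      by_cases hi : i' = i
      · subst hi
        refine ⟨(pa j, b), by simp [clP], ?_⟩
        simp only
        rw [xa]
        rw [Bool.xor_false] at hq
        cases b
        · have := hcon j hq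
          simpa using this
        · exact hq
      · refine ⟨(px i', false), by simp [clP], ?_⟩
        simp only
        rw [xx]
        simpa using hi
  · rintro h ⟨x, hx, hq⟩
    obtain ⟨i, hi⟩ := chain (fun i => x (px i)) (fun d => x (pc d)) (by
      obtain ⟨l, hl, h⟩ := hx {(pc 0, true)} (Or.inl rfl)
      rw [mem_singleton] at hl
      subst hl
      exact h) (by
      intro d
      obtain ⟨l, hl, h⟩ := hx {(pc d.castSucc, false), (px d, true), (pc d.succ, true)}
        (Or.inr (Or.inr ⟨d, rfl⟩))
      simp only [mem_insert, mem_singleton] at hl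
      rcases hl with rfl | rfl | rfl
      · exact Or.inl h
      · exact Or.inr (Or.inl h)
      · exact Or.inr (Or.inr h)) (by
      obtain ⟨l, hl, h⟩ := hx {(pc (Fin.last R), false)} (Or.inr (Or.inl rfl))
      rw [mem_singleton] at hl
      subst hl
      exact h)
    obtain ⟨j, h1, h2⟩ := h i
    have k1 : ∀ b, w ((i, j), b) = true → x (pa j) = b := by
      intro b hb
      obtain ⟨l, hl, h⟩ := hq ((i, j), b) (by simpa using hb)
      simp only [clP, mem_insert, mem_singleton] at hl
      rcases hl with rfl | rfl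
      · simp only [hi] at h
        exact absurd h (by simp)
      · exact h
    have e1 := k1 false h1
    have e2 := k1 true h2
    rw [e1] at e2
    exact absurd e2 (by simp)

lemma card_VP : Fintype.card (VP R K) = R + (K + (R + 1)) := by
  simp [VP]

end Pi

section Wide

/-- The variables: binary selectors and a true constant for each row. -/
abbrev VW (R v : ℕ) : Type := Fin R × Option (Fin v)

variable {R v : ℕ}

def fxW (R v : ℕ) : Set (Finset (VW R v × Bool)) := {c | ∃ i, c = {((i, none), true)}}

/-- exclude the value `j` in row `i` (two copies) -/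
noncomputable def clW (q : (Fin R × (Fin v → Bool)) × Bool) : Finset (VW R v × Bool) :=
  (univ.image fun s : Fin v => ((q.1.1, some s), !(q.1.2 s))) ∪
    (if q.2 = true then {((q.1.1, none), false)} else ∅)

lemma mem_clW (q : (Fin R × (Fin v → Bool)) × Bool) (l : VW R v × Bool) :
    l ∈ clW q ↔ (∃ s, l = ((q.1.1, some s), !(q.1.2 s))) ∨
      (q.2 = true ∧ l = ((q.1.1, none), false)) := by
  unfold clW
  rw [mem_union, mem_image]
  constructor
  · rintro (⟨s, _, rfl⟩ | h)
    · exact Or.inl ⟨s, rfl⟩
    · split_ifs at h with hq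
      · exact Or.inr ⟨hq, mem_singleton.1 h⟩
      · exact absurd h (notMem_empty _)
  · rintro (⟨s, rfl⟩ | ⟨hq, rfl⟩)
    · exact Or.inl ⟨s, mem_univ _, rfl⟩
    · right
      rw [if_pos hq]
      exact mem_singleton_self _

lemma clW_inj (hv : 1 ≤ v) : Function.Injective (clW (R := R) (v := v)) := by
  rintro ⟨⟨i, j⟩, b⟩ ⟨⟨i', j'⟩, b'⟩ h
  have h1 : ∀ s, i = i' ∧ j s = j' s := by
    intro s
    have h1 := (mem_clW ((i, j), b) ((i, some s), !(j s))).2 (Or.inl ⟨s, rfl⟩)
    rw [h, mem_clW] at h1
    rcases h1 with ⟨s', h2⟩ | ⟨_, h2⟩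
    · simp only [Prod.mk.injEq, Option.some.injEq] at h2
      obtain ⟨⟨h3, rfl⟩, h4⟩ := h2
      exact ⟨h3, by simpa using h4⟩
    · simp at h2
  obtain rfl := (h1 ⟨0, hv⟩).1
  have hj : j = j' := funext fun s => (h1 s).2
  subst hj
  have hb : ∀ b b' : Bool, clW ((i, j), b) = clW ((i, j), b') → b = true → b' = true := by
    intro b b' h hb
    have h1 := (mem_clW ((i, j), b) ((i, none), false)).2 (Or.inr ⟨hb, rfl⟩)
    rw [h, mem_clW] at h1
    rcases h1 with ⟨s', h2⟩ | ⟨h3, _⟩
    · simp at h2
    · exact h3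
  have e : b = b' := by
    rw [Bool.eq_iff_iff]
    exact ⟨hb b b' h, hb b' b h.symm⟩
  rw [e]

lemma clW_card (q : (Fin R × (Fin v → Bool)) × Bool) : (clW q).card ≤ v + 1 := by
  unfold clW
  refine (card_union_le _ _).trans ?_
  refine Nat.add_le_add (card_image_le.trans (by simp)) ?_
  split_ifs <;> simp

lemma satW (w : (Fin R × (Fin v → Bool)) × Bool → Bool) :
    (∃ x : VW R v → Bool, (∀ c ∈ fxW R v, ∃ l ∈ c, x l.1 = l.2) ∧
        ∀ q, xor (w q) true = true → ∃ l ∈ clW q, x l.1 = l.2) ↔
      ∀ i, ∃ j, w ((i, j), false) = true ∧ w ((i, j), true) = true := by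
  constructor
  · rintro ⟨x, hx, hq⟩ i
    have h0 : x (i, none) = true := by
      obtain ⟨l, hl, h⟩ := hx {((i, none), true)} ⟨i, rfl⟩
      rw [mem_singleton] at hl
      subst hl
      exact h
    refine ⟨fun s => x (i, some s), ?_, ?_⟩
    · by_contra hcon
      obtain ⟨l, hl, h⟩ := hq ((i, _), false) (by simpa using hcon)
      rw [mem_clW] at hl
      rcases hl with ⟨s, rfl⟩ | ⟨h1, _⟩
      · simp at h
      · simp at h1
    · by_contra hcon
      obtain ⟨l, hl, h⟩ := hq ((i, _), true) (by simpa using hcon)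
      rw [mem_clW] at hl
      rcases hl with ⟨s, rfl⟩ | ⟨_, rfl⟩
      · simp at h
      · simp only at h
        rw [h0] at h
        simp at h
  · intro h
    choose J hJ1 hJ2 using h
    refine ⟨fun v => match v with
      | (i, none) => true
      | (i, some s) => J i s, ?_, ?_⟩
    · rintro c ⟨i, rfl⟩
      exact ⟨_, mem_singleton_self _, rfl⟩
    · rintro ⟨⟨i, j⟩, b⟩ hq
      have hne : j ≠ J i := by
        rintro rfl
        cases b
        · rw [hJ1] at hq; simp at hq
        · rw [hJ2] at hq; simp at hq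
      obtain ⟨s, hs⟩ := Function.ne_iff.1 hne
      refine ⟨((i, some s), !(j s)), (mem_clW _ _).2 (Or.inl ⟨s, rfl⟩), ?_⟩
      simp only
      cases h1 : j s <;> cases h2 : J i s <;> simp_all

lemma card_VW : Fintype.card (VW R v) = R * (v + 1) := by
  simp [VW]

end Wide

end Pool.Agent.J4H64.D3
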